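import Pool.Agent.Helper52.EHP.Opt
import Pool.Agent.Helper7.IA.Basic

/-!
# The optimal parameter `k`
-/

open Real Set

namespace EHP

/-- the equation for `u` and `v` -/
noncomputable def FF (k w : ℝ) : ℝ := log w * log k - Lam k * gr k w

theorem hasDerivAt_gr_w {k w : ℝ} (h1 : k * w - 1 ≠ 0) (h2 : k - w ≠ 0) :
    HasDerivAt (fun w => gr k w) (k / (k * w - 1) + 1 / (k - w)) w := by
  unfold gr
  have a : HasDerivAt (fun w => k * w - 1) k w := by
    have := ((hasDerivAt_id w).const_mul k).sub_const 1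
    simpa using this
  have b : HasDerivAt (fun w => k - w) (-1) w := by
    have := (hasDerivAt_id w).const_sub k
    simpa using this
  have h4 := (a.fun_div b h2).log (div_ne_zero h1 h2)
  refine h4.congr_deriv ?_
  field_simp
  ring

theorem hasDerivAt_gr_k {k w : ℝ} (h1 : k * w - 1 ≠ 0) (h2 : k - w ≠ 0) :
    HasDerivAt (fun k => gr k w) (w / (k * w - 1) - 1 / (k - w)) k := by
  unfold gr
  have a : HasDerivAt (fun k => k * w - 1) w k := by
    have := ((hasDerivAt_id k).mul_const w).sub_const 1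
    simpa using this
  have b : HasDerivAt (fun k => k - w) 1 k := by
    have := (hasDerivAt_id k).sub_const w
    simpa using this
  have h4 := (a.fun_div b h2).log (div_ne_zero h1 h2)
  refine h4.congr_deriv ?_
  have h1' : w * k - 1 ≠ 0 := by rwa [mul_comm]
  field_simp

theorem hasDerivAt_Lam {k : ℝ} (h1 : 0 < k) : HasDerivAt Lam (2 / (k + 1) - 1 / k) k := by
  have a : HasDerivAt (fun k : ℝ => (k + 1) ^ 2) (2 * (k + 1)) k := by
    have := ((hasDerivAt_id k).add_const 1).fun_pow 2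
    simpa using this
  have b : HasDerivAt (fun k : ℝ => 2 * k) 2 k := by
    have := (hasDerivAt_id k).const_mul (2:ℝ)
    simpa using this
  have h4 := (a.fun_div b (by positivity)).log (by positivity)
  refine h4.congr_deriv ?_
  field_simp

theorem hasDerivAt_FF_w {k w : ℝ} (h0 : 0 < w) (h1 : k * w - 1 ≠ 0) (h2 : k - w ≠ 0) :
    HasDerivAt (fun w => FF k w) (1 / w * log k - Lam k * (k / (k * w - 1) + 1 / (k - w))) w := by
  unfold FF
  refine (((Real.hasDerivAt_log h0.ne').mul_const (log k)).fun_sub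
    ((hasDerivAt_gr_w h1 h2).const_mul (Lam k))).congr_deriv ?_
  rw [one_div w]

theorem hasDerivAt_FF_k {k w : ℝ} (h0 : 0 < k) (h1 : k * w - 1 ≠ 0) (h2 : k - w ≠ 0) :
    HasDerivAt (fun k => FF k w) (log w * (1 / k) - ((2 / (k + 1) - 1 / k) * gr k w +
      Lam k * (w / (k * w - 1) - 1 / (k - w)))) k := by
  unfold FF
  refine (((Real.hasDerivAt_log h0.ne').const_mul (log w)).fun_sub
    ((hasDerivAt_Lam h0).fun_mul (hasDerivAt_gr_k h1 h2))).congr_deriv ?_
  rw [one_div k]

/-! ### monotonicity -/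

theorem anti_of_deriv {f f' : ℝ → ℝ} {a b : ℝ} (h : ∀ x ∈ Icc a b, HasDerivAt f (f' x) x)
    (h' : ∀ x ∈ Icc a b, f' x < 0) : StrictAntiOn f (Icc a b) := by
  refine strictAntiOn_of_deriv_neg (convex_Icc a b) (fun x hx => (h x hx).continuousAt.continuousWithinAt) ?_
  intro x hx
  rw [interior_Icc] at hx
  rw [(h x (Ioo_subset_Icc_self hx)).deriv]
  exact h' x (Ioo_subset_Icc_self hx)

theorem mono_of_deriv {f f' : ℝ → ℝ} {a b : ℝ} (h : ∀ x ∈ Icc a b, HasDerivAt f (f' x) x)
    (h' : ∀ x ∈ Icc a b, 0 < f' x) : StrictMonoOn f (Icc a b) := by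
  refine strictMonoOn_of_deriv_pos (convex_Icc a b) (fun x hx => (h x hx).continuousAt.continuousWithinAt) ?_
  intro x hx
  rw [interior_Icc] at hx
  rw [(h x (Ioo_subset_Icc_self hx)).deriv]
  exact h' x (Ioo_subset_Icc_self hx)

/-- continuity of the root of a family of decreasing functions -/
theorem root_cont {F : ℝ → ℝ → ℝ} {U : ℝ → ℝ} {k1 k2 u1 u2 : ℝ}
    (hc : ∀ w ∈ Icc u1 u2, ContinuousOn (fun k => F k w) (Icc k1 k2))
    (ha : ∀ k ∈ Icc k1 k2, StrictAntiOn (F k) (Icc u1 u2))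
    (hU : ∀ k ∈ Icc k1 k2, U k ∈ Ioo u1 u2 ∧ F k (U k) = 0) : ContinuousOn U (Icc k1 k2) := by
  intro k0 hk0
  have h0 := hU k0 hk0
  refine tendsto_order.2 ⟨fun a ha' => ?_, fun a ha' => ?_⟩
  · rcases le_or_gt a u1 with h | h
    · filter_upwards [self_mem_nhdsWithin] with k hk
      exact h.trans_lt (hU k hk).1.1
    · have ha2 : a ∈ Icc u1 u2 := ⟨h.le, (ha'.trans h0.1.2).le⟩
      have h1 : 0 < F k0 a := by
        rw [← h0.2]
        exact ha k0 hk0 ha2 (Ioo_subset_Icc_self h0.1) ha'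
      have h2 := (hc a ha2 k0 hk0).eventually (lt_mem_nhds h1)
      filter_upwards [h2, self_mem_nhdsWithin] with k hk hk'
      by_contra hcon
      have h3 := (ha k hk').antitoneOn (Ioo_subset_Icc_self (hU k hk').1) ha2 (not_lt.1 hcon)
      rw [(hU k hk').2] at h3
      linarith
  · rcases le_or_gt u2 a with h | h
    · filter_upwards [self_mem_nhdsWithin] with k hk
      exact (hU k hk).1.2.trans_le h
    · have ha2 : a ∈ Icc u1 u2 := ⟨(h0.1.1.trans ha').le, h.le⟩
      have h1 : F k0 a < 0 := by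
        rw [← h0.2]
        exact ha k0 hk0 (Ioo_subset_Icc_self h0.1) ha2 ha'
      have h2 := (hc a ha2 k0 hk0).eventually (gt_mem_nhds h1)
      filter_upwards [h2, self_mem_nhdsWithin] with k hk hk'
      by_contra hcon
      have h3 := (ha k hk').antitoneOn ha2 (Ioo_subset_Icc_self (hU k hk').1) (not_lt.1 hcon)
      rw [(hU k hk').2] at h3
      linarith

/-! ### the box -/

section box

variable {k w : ℝ}

theorem encK (h : k ∈ Icc (38.8869 : ℝ) 38.8871) : IA.Enc k (some (38.8869, 38.8871)) :=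
  IA.enc_of _ _ (by have := h.1; push_cast; exact this) (by have := h.2; push_cast; exact this)

theorem encU (h : w ∈ Icc (17.8618 : ℝ) 17.862) : IA.Enc w (some (17.8618, 17.862)) :=
  IA.enc_of _ _ (by have := h.1; push_cast; exact this) (by have := h.2; push_cast; exact this)

theorem encV (h : w ∈ Icc (55.4254 : ℝ) 55.4258) : IA.Enc w (some (55.4254, 55.4258)) :=
  IA.enc_of _ _ (by have := h.1; push_cast; exact this) (by have := h.2; push_cast; exact this)

theorem neU (hk : k ∈ Icc (38.8869 : ℝ) 38.8871) (hw : w ∈ Icc (17.8618 : ℝ) 17.862) :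
    0 < w ∧ k * w - 1 ≠ 0 ∧ k - w ≠ 0 := by
  obtain ⟨a, b⟩ := hk
  obtain ⟨c, d⟩ := hw
  refine ⟨by linarith, ?_, ?_⟩
  · nlinarith
  · linarith

theorem neV (hk : k ∈ Icc (38.8869 : ℝ) 38.8871) (hw : w ∈ Icc (55.4254 : ℝ) 55.4258) :
    0 < w ∧ k * w - 1 ≠ 0 ∧ k - w ≠ 0 := by
  obtain ⟨a, b⟩ := hk
  obtain ⟨c, d⟩ := hw
  refine ⟨by linarith, ?_, ?_⟩
  · nlinarith
  · linarith

theorem FF_antiU (hk : k ∈ Icc (38.8869 : ℝ) 38.8871) : StrictAntiOn (FF k) (Icc (17.8618 : ℝ) 17.862) := by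
  refine anti_of_deriv (fun w hw => hasDerivAt_FF_w (neU hk hw).1 (neU hk hw).2.1 (neU hk hw).2.2) ?_
  intro w hw
  have := encK hk
  have := encU hw
  unfold Lam
  exact IA.neg (by decide +kernel)

theorem FF_monoV (hk : k ∈ Icc (38.8869 : ℝ) 38.8871) : StrictMonoOn (FF k) (Icc (55.4254 : ℝ) 55.4258) := by
  refine mono_of_deriv (fun w hw => hasDerivAt_FF_w (neV hk hw).1 (neV hk hw).2.1 (neV hk hw).2.2) ?_
  intro w hw
  have := encK hk
  have := encV hw
  unfold Lam
  exact IA.pos (by decide +kernel)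

theorem FF_kU (hw : w ∈ Icc (17.8618 : ℝ) 17.862) :
    StrictMonoOn (fun k => FF k w) (Icc (38.8869 : ℝ) 38.8871) := by
  refine mono_of_deriv (fun k hk => hasDerivAt_FF_k (by linarith [hk.1]) (neU hk hw).2.1 (neU hk hw).2.2) ?_
  intro k hk
  have := encK hk
  have := encU hw
  unfold Lam gr
  exact IA.pos (by decide +kernel)

theorem gr_swap (k w : ℝ) : gr k w = log ((k * w - 1) / (w - k)) := by
  unfold gr
  rw [← Real.log_neg_eq_log, ← div_neg, neg_sub]

theorem FF_kV (hw : w ∈ Icc (55.4254 : ℝ) 55.4258) :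
    StrictAntiOn (fun k => FF k w) (Icc (38.8869 : ℝ) 38.8871) := by
  refine anti_of_deriv (fun k hk => hasDerivAt_FF_k (by linarith [hk.1]) (neV hk hw).2.1 (neV hk hw).2.2) ?_
  intro k hk
  have := encK hk
  have := encV hw
  rw [gr_swap]
  unfold Lam
  exact IA.neg (by decide +kernel)

theorem exU (hk : k ∈ Icc (38.8869 : ℝ) 38.8871) : ∃ u ∈ Ioo (17.8618 : ℝ) 17.862, FF k u = 0 := by
  have h1 : 0 < FF k 17.8618 := by
    have h2 : 0 < FF 38.8869 17.8618 := by
      unfold FF Lam gr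
      exact IA.pos (by decide +kernel)
    have h3 := (FF_kU (w := 17.8618) ⟨le_refl _, by norm_num⟩).monotoneOn
      ⟨le_refl _, by norm_num⟩ hk hk.1
    exact h2.trans_le h3
  have h1' : FF k 17.862 < 0 := by
    have h2 : FF 38.8871 17.862 < 0 := by
      unfold FF Lam gr
      exact IA.neg (by decide +kernel)
    have h3 := (FF_kU (w := 17.862) ⟨by norm_num, le_refl _⟩).monotoneOn hk
      ⟨by norm_num, le_refl _⟩ hk.2
    exact h3.trans_lt h2
  have hc : ContinuousOn (FF k) (Icc (17.8618 : ℝ) 17.862) := fun w hw =>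
    (hasDerivAt_FF_w (neU hk hw).1 (neU hk hw).2.1 (neU hk hw).2.2).continuousAt.continuousWithinAt
  have := intermediate_value_Ioo' (by norm_num) hc
  exact this ⟨h1', h1⟩

theorem exV (hk : k ∈ Icc (38.8869 : ℝ) 38.8871) : ∃ u ∈ Ioo (55.4254 : ℝ) 55.4258, FF k u = 0 := by
  have h1 : 0 < FF k 55.4258 := by
    have h2 : 0 < FF 38.8871 55.4258 := by
      unfold FF
      rw [gr_swap]
      unfold Lam
      exact IA.pos (by decide +kernel)
    have h3 := (FF_kV (w := 55.4258) ⟨by norm_num, le_refl _⟩).antitoneOn hk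
      ⟨by norm_num, le_refl _⟩ hk.2
    exact h2.trans_le h3
  have h1' : FF k 55.4254 < 0 := by
    have h2 : FF 38.8869 55.4254 < 0 := by
      unfold FF
      rw [gr_swap]
      unfold Lam
      exact IA.neg (by decide +kernel)
    have h3 := (FF_kV (w := 55.4254) ⟨le_refl _, by norm_num⟩).antitoneOn
      ⟨le_refl _, by norm_num⟩ hk hk.1
    exact h3.trans_lt h2
  have hc : ContinuousOn (FF k) (Icc (55.4254 : ℝ) 55.4258) := fun w hw =>
    (hasDerivAt_FF_w (neV hk hw).1 (neV hk hw).2.1 (neV hk hw).2.2).continuousAt.continuousWithinAt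
  have := intermediate_value_Ioo (by norm_num) hc
  exact this ⟨h1', h1⟩

/-- stationarity function -/
noncomputable def SF (k u v : ℝ) : ℝ :=
  DD k v * XX k v * PP k (Lam k / log k) u - DD k u * XX k u * PP k (Lam k / log k) v

set_option synthInstance.maxSize 1000000 in
theorem SF_left {u v : ℝ} (hu : u ∈ Ioo (17.8618 : ℝ) 17.862) (hv : v ∈ Ioo (55.4254 : ℝ) 55.4258)
    (eu : FF 38.8869 u = 0) (ev : FF 38.8869 v = 0) : SF 38.8869 u v < 0 := by
  have hk : (38.8869 : ℝ) ∈ Icc (38.8869 : ℝ) 38.8871 := ⟨le_refl _, by norm_num⟩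
  have a1 : 0 < FF 38.8869 17.861847 := by
    unfold FF Lam gr; exact IA.pos (by decide +kernel)
  have a2 : FF 38.8869 17.861848 < 0 := by
    unfold FF Lam gr; exact IA.neg (by decide +kernel)
  have a3 : FF 38.8869 55.425464 < 0 := by
    unfold FF; rw [gr_swap]; unfold Lam; exact IA.neg (by decide +kernel)
  have a4 : 0 < FF 38.8869 55.425466 := by
    unfold FF; rw [gr_swap]; unfold Lam; exact IA.pos (by decide +kernel)
  have mU := FF_antiU hk
  have mV := FF_monoV hk
  have b1 : 17.861847 ≤ u := by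
    by_contra hc
    have := mU (Ioo_subset_Icc_self hu) ⟨by norm_num, by norm_num⟩ (not_le.1 hc)
    linarith
  have b2 : u ≤ 17.861848 := by
    by_contra hc
    have := mU ⟨by norm_num, by norm_num⟩ (Ioo_subset_Icc_self hu) (not_le.1 hc)
    linarith
  have b3 : 55.425464 ≤ v := by
    by_contra hc
    have := mV (Ioo_subset_Icc_self hv) ⟨by norm_num, by norm_num⟩ (not_le.1 hc)
    linarith
  have b4 : v ≤ 55.425466 := by
    by_contra hc
    have := mV ⟨by norm_num, by norm_num⟩ (Ioo_subset_Icc_self hv) (not_le.1 hc)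
    linarith
  have e1 : IA.Enc u (some (17.861847, 17.861848)) :=
    IA.enc_of _ _ (by push_cast; exact b1) (by push_cast; exact b2)
  have e2 : IA.Enc v (some (55.425464, 55.425466)) :=
    IA.enc_of _ _ (by push_cast; exact b3) (by push_cast; exact b4)
  unfold SF DD XX PP H
  rw [gr_swap _ v]
  unfold Lam gr
  exact IA.neg (by decide +kernel)

set_option synthInstance.maxSize 1000000 in
theorem SF_right {u v : ℝ} (hu : u ∈ Ioo (17.8618 : ℝ) 17.862) (hv : v ∈ Ioo (55.4254 : ℝ) 55.4258)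
    (eu : FF 38.8871 u = 0) (ev : FF 38.8871 v = 0) : 0 < SF 38.8871 u v := by
  have hk : (38.8871 : ℝ) ∈ Icc (38.8869 : ℝ) 38.8871 := ⟨by norm_num, le_refl _⟩
  have a1 : 0 < FF 38.8871 17.861948 := by
    unfold FF Lam gr; exact IA.pos (by decide +kernel)
  have a2 : FF 38.8871 17.861949 < 0 := by
    unfold FF Lam gr; exact IA.neg (by decide +kernel)
  have a3 : FF 38.8871 55.425748 < 0 := by
    unfold FF; rw [gr_swap]; unfold Lam; exact IA.neg (by decide +kernel)
  have a4 : 0 < FF 38.8871 55.42575 := by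
    unfold FF; rw [gr_swap]; unfold Lam; exact IA.pos (by decide +kernel)
  have mU := FF_antiU hk
  have mV := FF_monoV hk
  have b1 : 17.861948 ≤ u := by
    by_contra hc
    have := mU (Ioo_subset_Icc_self hu) ⟨by norm_num, by norm_num⟩ (not_le.1 hc)
    linarith
  have b2 : u ≤ 17.861949 := by
    by_contra hc
    have := mU ⟨by norm_num, by norm_num⟩ (Ioo_subset_Icc_self hu) (not_le.1 hc)
    linarith
  have b3 : 55.425748 ≤ v := by
    by_contra hc
    have := mV (Ioo_subset_Icc_self hv) ⟨by norm_num, by norm_num⟩ (not_le.1 hc)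
    linarith
  have b4 : v ≤ 55.42575 := by
    by_contra hc
    have := mV ⟨by norm_num, by norm_num⟩ (Ioo_subset_Icc_self hv) (not_le.1 hc)
    linarith
  have e1 : IA.Enc u (some (17.861948, 17.861949)) :=
    IA.enc_of _ _ (by push_cast; exact b1) (by push_cast; exact b2)
  have e2 : IA.Enc v (some (55.425748, 55.42575)) :=
    IA.enc_of _ _ (by push_cast; exact b3) (by push_cast; exact b4)
  unfold SF DD XX PP H
  rw [gr_swap _ v]
  unfold Lam gr
  exact IA.pos (by decide +kernel)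

end box

theorem exists_opt : ∃ k u v, Opt k u v := by
  have hU : ∀ k : ℝ, ∃ u : ℝ, k ∈ Icc (38.8869 : ℝ) 38.8871 → u ∈ Ioo (17.8618 : ℝ) 17.862 ∧ FF k u = 0 := by
    intro k
    by_cases hk : k ∈ Icc (38.8869 : ℝ) 38.8871
    · obtain ⟨u, h1, h2⟩ := exU hk
      exact ⟨u, fun _ => ⟨h1, h2⟩⟩
    · exact ⟨0, fun h => absurd h hk⟩
  have hV : ∀ k : ℝ, ∃ u : ℝ, k ∈ Icc (38.8869 : ℝ) 38.8871 → u ∈ Ioo (55.4254 : ℝ) 55.4258 ∧ FF k u = 0 := by
    intro k
    by_cases hk : k ∈ Icc (38.8869 : ℝ) 38.8871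
    · obtain ⟨u, h1, h2⟩ := exV hk
      exact ⟨u, fun _ => ⟨h1, h2⟩⟩
    · exact ⟨0, fun h => absurd h hk⟩
  choose U hU using hU
  choose V hV using hV
  have cU : ContinuousOn U (Icc (38.8869 : ℝ) 38.8871) := by
    refine root_cont (F := FF) (u1 := 17.8618) (u2 := 17.862) ?_ (fun k hk => FF_antiU hk) hU
    intro w hw k hk
    exact (hasDerivAt_FF_k (by linarith [hk.1]) (neU hk hw).2.1 (neU hk hw).2.2).continuousAt.continuousWithinAt
  have cV : ContinuousOn V (Icc (38.8869 : ℝ) 38.8871) := by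
    refine root_cont (F := fun k w => -FF k w) (u1 := 55.4254) (u2 := 55.4258) ?_
      (fun k hk => (FF_monoV hk).neg) (fun k hk => ⟨(hV k hk).1, by rw [(hV k hk).2, neg_zero]⟩)
    intro w hw k hk
    exact (hasDerivAt_FF_k (by linarith [hk.1]) (neV hk hw).2.1 (neV hk hw).2.2).neg.continuousAt.continuousWithinAt
  have cS : ContinuousOn (fun k => SF k (U k) (V k)) (Icc (38.8869 : ℝ) 38.8871) := by
    have hk0 : ∀ k ∈ Icc (38.8869 : ℝ) 38.8871, k ≠ 0 := fun k hk => by linarith [hk.1]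
    have hk1 : ∀ k ∈ Icc (38.8869 : ℝ) 38.8871, k + 1 ≠ 0 := fun k hk => by linarith [hk.1]
    have hL : ∀ k ∈ Icc (38.8869 : ℝ) 38.8871, log k ≠ 0 := fun k hk =>
      (Real.log_pos (by linarith [hk.1])).ne'
    have hU1 : ∀ k ∈ Icc (38.8869 : ℝ) 38.8871, U k - 1 ≠ 0 := fun k hk => by linarith [(hU k hk).1.1]
    have hV1 : ∀ k ∈ Icc (38.8869 : ℝ) 38.8871, V k - 1 ≠ 0 := fun k hk => by linarith [(hV k hk).1.1]
    have hU0 : ∀ k ∈ Icc (38.8869 : ℝ) 38.8871, U k ≠ 0 := fun k hk => by linarith [(hU k hk).1.1]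
    have hV0 : ∀ k ∈ Icc (38.8869 : ℝ) 38.8871, V k ≠ 0 := fun k hk => by linarith [(hV k hk).1.1]
    have nU := fun k (hk : k ∈ Icc (38.8869 : ℝ) 38.8871) => neU hk (Ioo_subset_Icc_self (hU k hk).1)
    have nV := fun k (hk : k ∈ Icc (38.8869 : ℝ) 38.8871) => neV hk (Ioo_subset_Icc_self (hV k hk).1)
    have cLam : ContinuousOn Lam (Icc (38.8869 : ℝ) 38.8871) := fun k hk =>
      (hasDerivAt_Lam (by linarith [hk.1])).continuousAt.continuousWithinAt
    have cL : ContinuousOn log (Icc (38.8869 : ℝ) 38.8871) := fun k hk =>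
      (Real.continuousAt_log (hk0 k hk)).continuousWithinAt
    have cgU : ContinuousOn (fun k => gr k (U k)) (Icc (38.8869 : ℝ) 38.8871) := by
      unfold gr
      refine ContinuousOn.log (ContinuousOn.div ((continuousOn_id.mul cU).sub continuousOn_const)
        (continuousOn_id.sub cU) ?_) ?_
      · exact fun k hk => (nU k hk).2.2
      · exact fun k hk => div_ne_zero (nU k hk).2.1 (nU k hk).2.2
    have cgV : ContinuousOn (fun k => gr k (V k)) (Icc (38.8869 : ℝ) 38.8871) := by
      unfold gr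
      refine ContinuousOn.log (ContinuousOn.div ((continuousOn_id.mul cV).sub continuousOn_const)
        (continuousOn_id.sub cV) ?_) ?_
      · exact fun k hk => (nV k hk).2.2
      · exact fun k hk => div_ne_zero (nV k hk).2.1 (nV k hk).2.2
    have cDU : ContinuousOn (fun k => DD k (U k)) (Icc (38.8869 : ℝ) 38.8871) := by
      unfold DD
      exact (((cU.add continuousOn_const).div (cU.sub continuousOn_const) hU1).mul cL).sub cgU
    have cDV : ContinuousOn (fun k => DD k (V k)) (Icc (38.8869 : ℝ) 38.8871) := by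
      unfold DD
      exact (((cV.add continuousOn_const).div (cV.sub continuousOn_const) hV1).mul cL).sub cgV
    have cH : ContinuousOn H (Icc (38.8869 : ℝ) 38.8871) := by
      unfold H
      refine ContinuousOn.div (continuousOn_const.mul continuousOn_id)
        ((continuousOn_id.add continuousOn_const).pow 2) ?_
      exact fun k hk => pow_ne_zero 2 (hk1 k hk)
    have cXU : ContinuousOn (fun k => XX k (U k)) (Icc (38.8869 : ℝ) 38.8871) := by
      unfold XX
      exact cH.mul (continuousOn_const.sub (continuousOn_const.div (cU.pow 2)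
        (fun k hk => pow_ne_zero 2 (hU0 k hk))))
    have cXV : ContinuousOn (fun k => XX k (V k)) (Icc (38.8869 : ℝ) 38.8871) := by
      unfold XX
      exact cH.mul (continuousOn_const.sub (continuousOn_const.div (cV.pow 2)
        (fun k hk => pow_ne_zero 2 (hV0 k hk))))
    have cPU : ContinuousOn (fun k => PP k (Lam k / log k) (U k)) (Icc (38.8869 : ℝ) 38.8871) := by
      unfold PP
      refine (continuousOn_const.div cU hU0).sub ((cLam.div cL hL).mul (ContinuousOn.sub ?_ ?_))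
      · exact continuousOn_id.div ((continuousOn_id.mul cU).sub continuousOn_const) (fun k hk => (nU k hk).2.1)
      · refine continuousOn_const.div (cU.sub continuousOn_id) (fun k hk => ?_)
        have := (nU k hk).2.2
        intro h
        apply this
        linarith
    have cPV : ContinuousOn (fun k => PP k (Lam k / log k) (V k)) (Icc (38.8869 : ℝ) 38.8871) := by
      unfold PP
      refine (continuousOn_const.div cV hV0).sub ((cLam.div cL hL).mul (ContinuousOn.sub ?_ ?_))
      · exact continuousOn_id.div ((continuousOn_id.mul cV).sub continuousOn_const) (fun k hk => (nV k hk).2.1)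
      · refine continuousOn_const.div (cV.sub continuousOn_id) (fun k hk => ?_)
        have := (nV k hk).2.2
        intro h
        apply this
        linarith
    unfold SF
    exact ((cDV.mul cXV).mul cPU).sub ((cDU.mul cXU).mul cPV)
  have hl : (38.8869 : ℝ) ∈ Icc (38.8869 : ℝ) 38.8871 := ⟨le_refl _, by norm_num⟩
  have hr : (38.8871 : ℝ) ∈ Icc (38.8869 : ℝ) 38.8871 := ⟨by norm_num, le_refl _⟩
  have s1 := SF_left (hU _ hl).1 (hV _ hl).1 (hU _ hl).2 (hV _ hl).2
  have s2 := SF_right (hU _ hr).1 (hV _ hr).1 (hU _ hr).2 (hV _ hr).2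
  obtain ⟨k, hk, hk0⟩ := intermediate_value_Ioo (by norm_num : (38.8869 : ℝ) ≤ 38.8871) cS ⟨s1, s2⟩
  have hk' := Ioo_subset_Icc_self hk
  have eU := (hU k hk').2
  have eV := (hV k hk').2
  simp only [FF, SF] at eU eV hk0
  exact ⟨k, U k, V k, ⟨hk.1, hk.2, (hU k hk').1.1, (hU k hk').1.2, (hV k hk').1.1, (hV k hk').1.2,
    by linarith, by linarith, by linarith⟩⟩

theorem opt_lt {k u₀ v₀ : ℝ} (O : Opt k u₀ v₀) : X k v₀ - X k u₀ < 1.8345 := by
  have e0 := encK (k := k) ⟨O.k1.le, O.k2.le⟩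
  have e1 := encU (w := u₀) ⟨O.u1.le, O.u2.le⟩
  have e2 := encV (w := v₀) ⟨O.v1.le, O.v2.le⟩
  have h : X k v₀ - X k u₀ = H k * (v₀ - u₀ + (1 / v₀ - 1 / u₀)) := by
    have h1 : v₀ ≠ 0 := by linarith [O.v1]
    have h2 : u₀ ≠ 0 := by linarith [O.u1]
    unfold X
    field_simp
    ring
  rw [h]
  have h3 : H k ≤ 0.0488847 := by
    have : H k < H 38.8869 := by
      unfold H
      rw [div_lt_div_iff₀ (by nlinarith [O.k1]) (by norm_num)]
      nlinarith [O.k1, O.k2]
    have : H 38.8869 ≤ 0.0488847 := by unfold H; exact IA.le_of (by decide +kernel)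
    linarith
  have h4 : 0 < v₀ - u₀ + (1 / v₀ - 1 / u₀) := IA.pos (by decide +kernel)
  have h5 : 0.0488847 * (v₀ - u₀ + (1 / v₀ - 1 / u₀)) < 1.8345 := IA.lt_of (by decide +kernel)
  exact (mul_le_mul_of_nonneg_right h3 h4.le).trans_lt h5

end EHP
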