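import Pool.Agent.Helper7.EHP.Opt

/-!
# The sharp inequality near the optimum
-/

open Real Set

namespace EHP

/-- derivative of `Phi k m` -/
noncomputable def P1 (k m w : ℝ) : ℝ :=
  -(2 / (w - 1) ^ 2) * (m * log k - Lam k) + 1 / w - m * (k / (k * w - 1) + 1 / (k - w))

/-- second derivative of `Phi k m` -/
noncomputable def P2 (k m w : ℝ) : ℝ :=
  4 / (w - 1) ^ 3 * (m * log k - Lam k) - 1 / w ^ 2 - m * (-(k ^ 2 / (k * w - 1) ^ 2) + 1 / (k - w) ^ 2)

theorem hasDerivAt_Phi {k m w : ℝ} (h : 1 < w) (h1 : k * w - 1 ≠ 0) (h2 : k - w ≠ 0) :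
    HasDerivAt (fun w => Phi k m w) (P1 k m w) w := by
  unfold Phi P1
  have hw : w - 1 ≠ 0 := by linarith
  have a : HasDerivAt (fun w : ℝ => w + 1) 1 w := by
    simpa using (hasDerivAt_id w).add_const (1:ℝ)
  have b : HasDerivAt (fun w : ℝ => w - 1) 1 w := by
    simpa using (hasDerivAt_id w).sub_const (1:ℝ)
  have c := ((((a.fun_div b hw).mul_const (m * log k - Lam k)).fun_add
    (Real.hasDerivAt_log (by linarith : w ≠ 0))).fun_sub ((hasDerivAt_gr_w h1 h2).const_mul m))
  refine c.congr_deriv ?_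
  have hw' : w ≠ 0 := by linarith
  congr 1
  congr 1
  · field_simp
    ring
  · rw [one_div]

theorem hasDerivAt_P1 {k m w : ℝ} (h : 1 < w) (h1 : k * w - 1 ≠ 0) (h2 : k - w ≠ 0) :
    HasDerivAt (fun w => P1 k m w) (P2 k m w) w := by
  unfold P1 P2
  have hw : w - 1 ≠ 0 := by linarith
  have hw' : w ≠ 0 := by linarith
  have b : HasDerivAt (fun w : ℝ => (w - 1) ^ 2) (2 * (w - 1)) w := by
    have := ((hasDerivAt_id w).sub_const (1:ℝ)).fun_pow 2
    simpa using this
  have b' : HasDerivAt (fun w : ℝ => 2 / (w - 1) ^ 2) (-(4 / (w - 1) ^ 3)) w := by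
    refine ((hasDerivAt_const w (2:ℝ)).fun_div b (pow_ne_zero 2 hw)).congr_deriv ?_
    field_simp
    ring
  have d : HasDerivAt (fun w : ℝ => 1 / w) (-(1 / w ^ 2)) w := by
    refine ((hasDerivAt_const w (1:ℝ)).fun_div (hasDerivAt_id w) hw').congr_deriv ?_
    simp [neg_div]
  have e : HasDerivAt (fun w : ℝ => k / (k * w - 1)) (-(k ^ 2 / (k * w - 1) ^ 2)) w := by
    have e0 : HasDerivAt (fun w => k * w - 1) k w := by
      have := ((hasDerivAt_id w).const_mul k).sub_const 1
      simpa using this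
    refine ((hasDerivAt_const w k).fun_div e0 h1).congr_deriv ?_
    field_simp
    ring
  have f : HasDerivAt (fun w : ℝ => 1 / (k - w)) (1 / (k - w) ^ 2) w := by
    have f0 : HasDerivAt (fun w => k - w) (-1) w := by
      have := (hasDerivAt_id w).const_sub k
      simpa using this
    refine ((hasDerivAt_const w (1:ℝ)).fun_div f0 h2).congr_deriv ?_
    ring
  refine (((b'.fun_neg.mul_const (m * log k - Lam k)).fun_add d).fun_sub
    ((e.fun_add f).const_mul m)).congr_deriv ?_
  ring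

theorem hasDerivAt_X {k w : ℝ} (h : 0 < w) : HasDerivAt (fun w => X k w) (XX k w) w := by
  unfold X XX
  have a : HasDerivAt (fun w : ℝ => H k * (w + 1) ^ 2) (H k * (2 * (w + 1))) w := by
    have := (((hasDerivAt_id w).add_const (1:ℝ)).fun_pow 2).const_mul (H k)
    simpa using this
  refine ((a.fun_div (hasDerivAt_id w) h.ne').const_add (-1)).congr_deriv ?_
  simp only [id]
  field_simp
  ring

theorem hasDerivAt_XX {k w : ℝ} (h : 0 < w) : HasDerivAt (fun w => XX k w) (2 * H k / w ^ 3) w := by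
  unfold XX
  have a : HasDerivAt (fun w : ℝ => w ^ 2) (2 * w) w := by
    have := (hasDerivAt_id w).fun_pow 2
    simpa using this
  refine ((((hasDerivAt_const w (1:ℝ)).fun_div a (by positivity)).const_sub 1).const_mul (H k)).congr_deriv ?_
  field_simp
  ring

/-- a critical point of a convex function is a minimum -/
theorem min_of_deriv2 {f f' f'' : ℝ → ℝ} {x0 x : ℝ} (h1 : ∀ w ∈ uIcc x0 x, HasDerivAt f (f' w) w)
    (h2 : ∀ w ∈ uIcc x0 x, HasDerivAt f' (f'' w) w) (h3 : ∀ w ∈ uIcc x0 x, 0 ≤ f'' w)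
    (h0 : f' x0 = 0) : f x0 ≤ f x := by
  have hmono : MonotoneOn f' (uIcc x0 x) := by
    refine monotoneOn_of_deriv_nonneg (convex_uIcc x0 x)
      (fun w hw => (h2 w hw).continuousAt.continuousWithinAt)
      (fun w hw => (h2 w (interior_subset hw)).differentiableAt.differentiableWithinAt) ?_
    intro w hw
    rw [(h2 w (interior_subset hw)).deriv]
    exact h3 w (interior_subset hw)
  rcases le_total x0 x with h | h
  · rw [uIcc_of_le h] at *
    have : MonotoneOn f (Icc x0 x) := by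
      refine monotoneOn_of_deriv_nonneg (convex_Icc x0 x)
        (fun w hw => (h1 w hw).continuousAt.continuousWithinAt)
        (fun w hw => (h1 w (interior_subset hw)).differentiableAt.differentiableWithinAt) ?_
      intro w hw
      rw [(h1 w (interior_subset hw)).deriv, ← h0]
      exact hmono ⟨le_refl _, h⟩ (interior_subset hw) (interior_subset hw).1
    exact this ⟨le_refl _, h⟩ ⟨h, le_refl _⟩ h
  · rw [uIcc_of_ge h] at *
    have : AntitoneOn f (Icc x x0) := by
      refine antitoneOn_of_deriv_nonpos (convex_Icc x x0)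
        (fun w hw => (h1 w hw).continuousAt.continuousWithinAt)
        (fun w hw => (h1 w (interior_subset hw)).differentiableAt.differentiableWithinAt) ?_
      intro w hw
      rw [(h1 w (interior_subset hw)).deriv, ← h0]
      exact hmono (interior_subset hw) ⟨h, le_refl _⟩ (interior_subset hw).2
    exact this ⟨le_refl _, h⟩ ⟨h, le_refl _⟩ h

/-- lower bound for `b` -/
theorem b_ge {m b m0 b0 : ℝ} (hm : m0 ≤ m) (hm' : m ≤ 1) (hm0 : 0 ≤ m0) (hb0 : b0 < 2) (hb : 1 < b)
    (h0 : m0 * log (b0 - 1) + (1 - m0) * log (b0 + 1) < 0)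
    (h : 0 ≤ m * log (b - 1) + (1 - m) * log (b + 1)) : b0 ≤ b := by
  by_contra hc
  rw [not_le] at hc
  have h1 : log (b - 1) ≤ log (b0 - 1) := Real.log_le_log (by linarith) (by linarith)
  have h2 : log (b + 1) ≤ log (b0 + 1) := Real.log_le_log (by linarith) (by linarith)
  have h3 : log (b0 - 1) ≤ 0 := Real.log_nonpos (by linarith) (by linarith)
  have h4 : 0 ≤ log (b0 + 1) := Real.log_nonneg (by linarith)
  nlinarith

/-- `P1` in terms of the increment of `m` -/
theorem P1_eq {k m w : ℝ} (hL : log k ≠ 0) :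
    P1 k m w = PP k (Lam k / log k) w + (m - Lam k / log k) *
      (-(2 / (w - 1) ^ 2) * log k - (k / (k * w - 1) + 1 / (k - w))) := by
  unfold P1 PP
  have h : 1 / (w - k) = -(1 / (k - w)) := by rw [← neg_sub k w, div_neg]
  rw [h]
  field_simp
  ring

theorem Phi_eq {k m w : ℝ} (hL : log k ≠ 0) (e : log w * log k = Lam k * gr k w) :
    Phi k m w = (m - Lam k / log k) * DD k w := by
  unfold Phi DD
  have e' : log w = Lam k / log k * gr k w := by
    field_simp
    exact e
  rw [e']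
  field_simp
  ring

/-- the second derivative is negative beyond `k` -/
theorem P2_nonpos {k m w : ℝ} (hk : 38.8869 ≤ k) (hk' : k ≤ 38.8871) (hm : 0.78 ≤ m) (hm' : m ≤ 0.86)
    (hw : k < w) : P2 k m w ≤ 0 := by
  have e0 := encK (k := k) ⟨hk, hk'⟩
  have e1 : IA.Enc m (some (0.78, 0.86)) :=
    IA.enc_of _ _ (by push_cast; exact hm) (by push_cast; exact hm')
  have hβ : m * log k - Lam k ≤ 0.131 := by unfold Lam; exact IA.le_of (by decide +kernel)
  have w0 : (0:ℝ) < w := by linarith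
  have w1 : (0:ℝ) < w - 1 := by linarith
  have h1 : 4 / (w - 1) ^ 3 * (m * log k - Lam k) ≤ 0.02 / w ^ 2 := by
    have h2 : 4 / (w - 1) ^ 3 * (m * log k - Lam k) ≤ 4 / (w - 1) ^ 3 * 0.131 :=
      mul_le_mul_of_nonneg_left hβ (by positivity)
    refine h2.trans ?_
    rw [div_mul_eq_mul_div, div_le_div_iff₀ (by positivity) (by positivity)]
    have h3 : 0.97 * w ≤ w - 1 := by linarith
    have h4 : (0.97 * w) ^ 2 ≤ (w - 1) ^ 2 := pow_le_pow_left₀ (by positivity) h3 2
    have h5 : 37 * (0.97 * w) ^ 2 ≤ (w - 1) * (w - 1) ^ 2 :=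
      mul_le_mul (by linarith) h4 (by positivity) w1.le
    nlinarith [sq_nonneg w]
  have h2 : m * (k ^ 2 / (k * w - 1) ^ 2) ≤ 0.87 / w ^ 2 := by
    have h3 : 0.999 * (k * w) ≤ k * w - 1 := by nlinarith
    have h3' : 0 < k * w := by nlinarith
    have h4 : (0.999 * (k * w)) ^ 2 ≤ (k * w - 1) ^ 2 := pow_le_pow_left₀ (by positivity) h3 2
    have h5 : m * (k ^ 2 / (k * w - 1) ^ 2) ≤ 0.86 * (k ^ 2 / (0.999 * (k * w)) ^ 2) := by
      refine mul_le_mul hm' ?_ (by positivity) (by norm_num)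
      exact div_le_div_of_nonneg_left (by positivity) (by positivity) h4
    refine h5.trans ?_
    have h6 : 0.86 * (k ^ 2 / (0.999 * (k * w)) ^ 2) = (0.86 / 0.999 ^ 2) / w ^ 2 := by
      have : k ≠ 0 := by linarith
      field_simp
    rw [h6]
    exact div_le_div_of_nonneg_right (by norm_num) (by positivity)
  have h3 : 0 ≤ m * (1 / (k - w) ^ 2) := by
    have : k - w ≠ 0 := by linarith
    positivity
  have h4 : 0.02 / w ^ 2 + 0.87 / w ^ 2 - 1 / w ^ 2 ≤ 0 := by
    rw [← add_div, ← sub_div]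
    exact div_nonpos_of_nonpos_of_nonneg (by norm_num) (by positivity)
  unfold P2
  nlinarith

theorem alg {xv dv pv xu du pu δ Ev Eu : ℝ} (h1 : pv ≠ 0) (h2 : pu ≠ 0)
    (st : xu * du * (pv - δ * Ev) = xv * dv * (pu - δ * Eu)) :
    -(xv / pv * (δ * dv)) - -xu / pu * (δ * du) = δ ^ 2 * (xu * du * Ev - xv * dv * Eu) / (pv * pu) := by
  field_simp
  linear_combination δ * st

/-- the tangent inequality at the optimum -/
theorem sharp_aux {k u₀ v₀ m u v : ℝ} (O : Opt k u₀ v₀) (hm : 0.78 ≤ m) (hm' : m ≤ 0.86)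
    (hu : 16.69 ≤ u) (hu' : u ≤ 18.5) (hv : k < v) :
    P1 k m u₀ < 0 ∧ 0 < P1 k m v₀ ∧
    X k v₀ - X k u₀ ≤ X k v - X k u - XX k v₀ / P1 k m v₀ * Phi k m v - -XX k u₀ / P1 k m u₀ * Phi k m u := by
  have hk1 := O.k1
  have hk2 := O.k2
  have hU : u₀ ∈ Icc (17.8618 : ℝ) 17.862 := ⟨O.u1.le, O.u2.le⟩
  have hV : v₀ ∈ Icc (55.4254 : ℝ) 55.4258 := ⟨O.v1.le, O.v2.le⟩
  have hK : k ∈ Icc (38.8869 : ℝ) 38.8871 := ⟨O.k1.le, O.k2.le⟩
  have e0 := encK hK
  have e1 := encU hU
  have e2 := encV hV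
  have e3 : IA.Enc m (some (0.78, 0.86)) :=
    IA.enc_of _ _ (by push_cast; exact hm) (by push_cast; exact hm')
  have nU := neU hK hU
  have nV := neV hK hV
  have pu : P1 k m u₀ < 0 := by unfold P1 Lam; exact IA.neg (by decide +kernel)
  have pv : 0 < P1 k m v₀ := by unfold P1 Lam; exact IA.pos (by decide +kernel)
  refine ⟨pu, pv, ?_⟩
  have xu : 0 < XX k u₀ := by unfold XX H; exact IA.pos (by decide +kernel)
  have xv : 0 < XX k v₀ := by unfold XX H; exact IA.pos (by decide +kernel)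
  set wb := XX k v₀ / P1 k m v₀ with hwb
  set wa := -XX k u₀ / P1 k m u₀ with hwa
  have wb0 : 0 ≤ wb := (div_pos xv pv).le
  have wa0 : 0.5 ≤ wa := by
    rw [hwa, le_div_iff_of_neg pu]
    unfold XX H P1 Lam
    exact IA.le_of (by decide +kernel)
  -- the right end
  have A : X k v₀ - wb * Phi k m v₀ ≤ X k v - wb * Phi k m v := by
    have hI : ∀ w ∈ uIcc v₀ v, k < w := by
      intro w hw
      have := hw.1
      have h2 : k < min v₀ v := lt_min (by linarith [O.v1]) hv
      exact h2.trans_le this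
    refine min_of_deriv2 (f := fun w => X k w - wb * Phi k m w) (f' := fun w => XX k w - wb * P1 k m w)
      (f'' := fun w => 2 * H k / w ^ 3 - wb * P2 k m w) ?_ ?_ ?_ ?_
    · intro w hw
      have hw := hI w hw
      have a1 : k * w - 1 ≠ 0 := by nlinarith
      have a2 : k - w ≠ 0 := by linarith
      exact (hasDerivAt_X (by linarith)).fun_sub ((hasDerivAt_Phi (by linarith) a1 a2).const_mul wb)
    · intro w hw
      have hw := hI w hw
      have a1 : k * w - 1 ≠ 0 := by nlinarith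
      have a2 : k - w ≠ 0 := by linarith
      exact (hasDerivAt_XX (by linarith)).fun_sub ((hasDerivAt_P1 (by linarith) a1 a2).const_mul wb)
    · intro w hw
      have hw := hI w hw
      have h1 := P2_nonpos hk1.le hk2.le hm hm' hw
      have h2 : 0 ≤ 2 * H k / w ^ 3 := by
        unfold H
        have : 0 < w := by linarith
        have : 0 < k := by linarith
        positivity
      have h3 : wb * P2 k m w ≤ 0 := mul_nonpos_of_nonneg_of_nonpos wb0 h1
      linarith
    · rw [hwb, div_mul_cancel₀ _ pv.ne', sub_self]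
  have B : -X k u₀ - wa * Phi k m u₀ ≤ -X k u - wa * Phi k m u := by
    have hI : ∀ w ∈ uIcc u₀ u, w ∈ Icc (16.69 : ℝ) 18.5 := by
      intro w hw
      exact uIcc_subset_Icc ⟨by linarith [hU.1], by linarith [hU.2]⟩ ⟨hu, hu'⟩ hw
    refine min_of_deriv2 (f := fun w => -X k w - wa * Phi k m w) (f' := fun w => -XX k w - wa * P1 k m w)
      (f'' := fun w => -(2 * H k / w ^ 3) - wa * P2 k m w) ?_ ?_ ?_ ?_
    · intro w hw
      have hw := hI w hw
      have a1 : k * w - 1 ≠ 0 := by nlinarith [hw.1]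
      have a2 : k - w ≠ 0 := by linarith [hw.2]
      exact (hasDerivAt_X (by linarith [hw.1])).fun_neg.fun_sub
        ((hasDerivAt_Phi (by linarith [hw.1]) a1 a2).const_mul wa)
    · intro w hw
      have hw := hI w hw
      have a1 : k * w - 1 ≠ 0 := by nlinarith [hw.1]
      have a2 : k - w ≠ 0 := by linarith [hw.2]
      exact (hasDerivAt_XX (by linarith [hw.1])).fun_neg.fun_sub
        ((hasDerivAt_P1 (by linarith [hw.1]) a1 a2).const_mul wa)
    · intro w hw
      have hw := hI w hw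
      have e4 : IA.Enc w (some (16.69, 18.5)) :=
        IA.enc_of _ _ (by push_cast; exact hw.1) (by push_cast; exact hw.2)
      have h1 : P2 k m w < -0.001 := by unfold P2 Lam; exact IA.lt_of (by decide +kernel)
      have h2 : 2 * H k / w ^ 3 < 0.0004 := by unfold H; exact IA.lt_of (by decide +kernel)
      nlinarith
    · rw [hwa, div_mul_cancel₀ _ pu.ne]
      ring
  have hL : log k ≠ 0 := (Real.log_pos (by linarith)).ne'
  have c1 := Phi_eq (m := m) hL O.ev
  have c2 := Phi_eq (m := m) hL O.eu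
  have C : 0 ≤ -(wb * Phi k m v₀) - wa * Phi k m u₀ := by
    rw [c1, c2, hwb, hwa]
    have d1 := P1_eq (m := m) (w := v₀) hL
    have d2 := P1_eq (m := m) (w := u₀) hL
    have st := O.st
    set δ := m - Lam k / log k
    set Ev := -(2 / (v₀ - 1) ^ 2) * log k - (k / (k * v₀ - 1) + 1 / (k - v₀)) with hEv
    set Eu := -(2 / (u₀ - 1) ^ 2) * log k - (k / (k * u₀ - 1) + 1 / (k - u₀)) with hEu
    have ev0 : 0 < Ev := by rw [hEv]; exact IA.pos (by decide +kernel)
    have eu0 : Eu < 0 := by rw [hEu]; exact IA.neg (by decide +kernel)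
    have du0 : 0 < DD k u₀ := by unfold DD gr; exact IA.pos (by decide +kernel)
    have dv0 : DD k v₀ < 0 := by unfold DD; rw [gr_swap]; exact IA.neg (by decide +kernel)
    have key : XX k u₀ * DD k u₀ * Ev - XX k v₀ * DD k v₀ * Eu ≤ 0 := by
      rw [hEv, hEu]
      unfold XX H DD
      rw [gr_swap _ v₀]
      unfold gr
      exact IA.nonpos (by decide +kernel)
    have eq : -(XX k v₀ / P1 k m v₀ * (δ * DD k v₀)) - -XX k u₀ / P1 k m u₀ * (δ * DD k u₀)
        = δ ^ 2 * (XX k u₀ * DD k u₀ * Ev - XX k v₀ * DD k v₀ * Eu) / (P1 k m v₀ * P1 k m u₀) := by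
      have st' : XX k u₀ * DD k u₀ * (P1 k m v₀ - δ * Ev) = XX k v₀ * DD k v₀ * (P1 k m u₀ - δ * Eu) := by
        rw [d1, d2]
        linarith
      exact alg pv.ne' pu.ne st'
    rw [eq]
    refine div_nonneg_of_nonpos ?_ (mul_nonpos_of_nonneg_of_nonpos pv.le pu.le)
    exact mul_nonpos_of_nonneg_of_nonpos (sq_nonneg _) key
  linarith

theorem X_lt {k w1 w2 : ℝ} (hk : 0 < k) (h1 : 1 ≤ w1) (h : w1 < w2) : X k w1 < X k w2 := by
  unfold X
  have hH : 0 < H k := by unfold H; positivity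
  have h2 : (w1 + 1) ^ 2 / w1 < (w2 + 1) ^ 2 / w2 := by
    rw [div_lt_div_iff₀ (by linarith) (by linarith)]
    have : 0 < (w2 - w1) * (w1 * w2 - 1) := mul_pos (by linarith) (by nlinarith)
    nlinarith
  rw [mul_div_assoc, mul_div_assoc]
  have := mul_lt_mul_of_pos_left h2 hH
  linarith

theorem X_self {k : ℝ} (hk : 1 < k) : X k k = 1 := by
  unfold X H
  have : k ≠ 0 := by linarith
  have : k + 1 ≠ 0 := by linarith
  field_simp
  norm_num

set_option synthInstance.maxSize 1000000 in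
theorem sharp {k u₀ v₀ m u v : ℝ} (O : Opt k u₀ v₀) (hm : 0.78 ≤ m) (hm' : m ≤ 0.86) (hu : 1 < u)
    (hu' : u < k) (hv : k < v) (ha : X k u ≤ 0) (hba : X k v - X k u < 1.8345)
    (hb : 0 ≤ m * log (X k v - 1) + (1 - m) * log (X k v + 1)) :
    ∃ wa wb, 0 ≤ wa ∧ 0 ≤ wb ∧
      X k v₀ - X k u₀ ≤ X k v - X k u - wb * Phi k m v - wa * Phi k m u ∧
      ((m ≤ 0.8 ∧ rho k u v wa wb ≤ 0.82 ∧ -0.083 ≤ X k u) ∨
        (0.8 ≤ m ∧ m ≤ 0.82 ∧ rho k u v wa wb ≤ 0.73 ∧ -0.06 ≤ X k u) ∨
        (0.82 ≤ m ∧ rho k u v wa wb ≤ 0.66 ∧ -0.037 ≤ X k u)) := by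
  have hk1 := O.k1
  have hk2 := O.k2
  have hU : u₀ ∈ Icc (17.8618 : ℝ) 17.862 := ⟨O.u1.le, O.u2.le⟩
  have hV : v₀ ∈ Icc (55.4254 : ℝ) 55.4258 := ⟨O.v1.le, O.v2.le⟩
  have hK : k ∈ Icc (38.8869 : ℝ) 38.8871 := ⟨O.k1.le, O.k2.le⟩
  have e0 := encK hK
  have e1 := encU hU
  have e2 := encV hV
  have k0 : 0 < k := by linarith
  have hb1 : 1 < X k v := by
    rw [← X_self (k := k) (by linarith)]
    exact X_lt k0 (by linarith) hv
  have hb2 : X k v < 1.8345 := by linarith
  have hv' : v ≤ 56 := by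
    by_contra hc
    have h1 := X_lt k0 (by norm_num) (not_le.1 hc)
    have h2 : 1.8345 < X k 56 := by unfold X H; exact IA.lt_of (by decide +kernel)
    linarith
  have hu2 : u ≤ 18.5 := by
    by_contra hc
    have h1 := X_lt k0 (by norm_num) (not_le.1 hc)
    have h2 : 0 < X k 18.5 := by unfold X H; exact IA.lt_of (by decide +kernel)
    linarith
  -- bounds for `b`
  have b1 : 1.7515 ≤ X k v := b_ge (m0 := 0.78) hm (by linarith) (by norm_num) (by norm_num) hb1
    (IA.neg (by decide +kernel)) hb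
  have a1 : -0.083 ≤ X k u := by linarith
  have u1 : 16.69 ≤ u := by
    by_contra hc
    have h1 := X_lt k0 hu.le (not_le.1 hc)
    have h2 : X k 16.69 < -0.083 := by unfold X H; exact IA.lt_of (by decide +kernel)
    linarith
  have v1 : 54.26 ≤ v := by
    by_contra hc
    have h1 := X_lt k0 (by linarith) (not_le.1 hc)
    have h2 : X k 54.26 < 1.7515 := by unfold X H; exact IA.lt_of (by decide +kernel)
    linarith
  obtain ⟨pu, pv, main⟩ := sharp_aux O hm hm' u1 hu2 hv
  have xu : 0 < XX k u₀ := by unfold XX H; exact IA.pos (by decide +kernel)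
  have xv : 0 < XX k v₀ := by unfold XX H; exact IA.pos (by decide +kernel)
  refine ⟨-XX k u₀ / P1 k m u₀, XX k v₀ / P1 k m v₀,
    (div_pos_of_neg_of_neg (by linarith) pu).le, (div_pos xv pv).le, main, ?_⟩
  rcases le_total m 0.8 with hm8 | hm8
  · left
    refine ⟨hm8, ?_, a1⟩
    have e3 : IA.Enc m (some (0.78, 0.8)) :=
      IA.enc_of _ _ (by push_cast; exact hm) (by push_cast; exact hm8)
    have e4 : IA.Enc u (some (16.69, 18.5)) :=
      IA.enc_of _ _ (by push_cast; exact u1) (by push_cast; exact hu2)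
    have e5 : IA.Enc v (some (54.26, 56)) :=
      IA.enc_of _ _ (by push_cast; exact v1) (by push_cast; exact hv')
    unfold rho ss P1 XX H Lam
    exact IA.le_of (by decide +kernel)
  right
  have b2 : 1.7745 ≤ X k v := b_ge (m0 := 0.8) hm8 (by linarith) (by norm_num) (by norm_num) hb1
    (IA.neg (by decide +kernel)) hb
  have a2 : -0.06 ≤ X k u := by linarith
  have u2 : 17.16 ≤ u := by
    by_contra hc
    have h1 := X_lt k0 hu.le (not_le.1 hc)
    have h2 : X k 17.16 < -0.06 := by unfold X H; exact IA.lt_of (by decide +kernel)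
    linarith
  have v2 : 54.73 ≤ v := by
    by_contra hc
    have h1 := X_lt k0 (by linarith) (not_le.1 hc)
    have h2 : X k 54.73 < 1.7745 := by unfold X H; exact IA.lt_of (by decide +kernel)
    linarith
  rcases le_total m 0.82 with hm9 | hm9
  · left
    refine ⟨hm8, hm9, ?_, a2⟩
    have e3 : IA.Enc m (some (0.8, 0.82)) :=
      IA.enc_of _ _ (by push_cast; exact hm8) (by push_cast; exact hm9)
    have e4 : IA.Enc u (some (17.16, 18.5)) :=
      IA.enc_of _ _ (by push_cast; exact u2) (by push_cast; exact hu2)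
    have e5 : IA.Enc v (some (54.73, 56)) :=
      IA.enc_of _ _ (by push_cast; exact v2) (by push_cast; exact hv')
    unfold rho ss P1 XX H Lam
    exact IA.le_of (by decide +kernel)
  right
  have b3 : 1.7975 ≤ X k v := b_ge (m0 := 0.82) hm9 (by linarith) (by norm_num) (by norm_num) hb1
    (IA.neg (by decide +kernel)) hb
  have a3 : -0.037 ≤ X k u := by linarith
  have u3 : 17.64 ≤ u := by
    by_contra hc
    have h1 := X_lt k0 hu.le (not_le.1 hc)
    have h2 : X k 17.64 < -0.037 := by unfold X H; exact IA.lt_of (by decide +kernel)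
    linarith
  have v3 : 55.2 ≤ v := by
    by_contra hc
    have h1 := X_lt k0 (by linarith) (not_le.1 hc)
    have h2 : X k 55.2 < 1.7975 := by unfold X H; exact IA.lt_of (by decide +kernel)
    linarith
  refine ⟨hm9, ?_, a3⟩
  have e3 : IA.Enc m (some (0.82, 0.86)) :=
    IA.enc_of _ _ (by push_cast; exact hm9) (by push_cast; exact hm')
  have e4 : IA.Enc u (some (17.64, 18.5)) :=
    IA.enc_of _ _ (by push_cast; exact u3) (by push_cast; exact hu2)
  have e5 : IA.Enc v (some (55.2, 56)) :=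
    IA.enc_of _ _ (by push_cast; exact v3) (by push_cast; exact hv')
  unfold rho ss P1 XX H Lam
  exact IA.le_of (by decide +kernel)

end EHP
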